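import Pool.Agent.Helper73.RF.GoalsA

/-!
Packet EVM of project RF (MP_c98eff_gt, helper73): evolution of the curvature operator.
-/

set_option autoImplicit false
set_option linter.unusedSimpArgs false

open Finset

namespace Pool.Agent.Helper10.RF

open Pool.Agent.Helper73.RF

variable {T : ℝ} {F : FBD T}

theorem bi3 (hF : F.Full) (j : Fin 3) :
    F.H 0 (F.M 0 j) + F.H 1 (F.M 1 j) + F.H 2 (F.M 2 j) = 0 := by
  have := hF.bianchi j
  rwa [Fin.sum_univ_three] at this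

theorem hbi3 (hF : F.Full) (a j : Fin 3) :
    F.H a (F.H 0 (F.M 0 j)) + F.H a (F.H 1 (F.M 1 j)) + F.H a (F.H 2 (F.M 2 j)) = 0 := by
  have := congrArg (F.H a) (bi3 hF j)
  simpa [map_add] using this

theorem evm00 (hF : F.Full) (hS : F.IsRF) :
    F.Hop (F.M 0 0) = (4 : ℝ) • (∑ i, F.M 0 i * F.M i 0) - (2 : ℝ) • (F.s * F.M 0 0)
       + (F.s ^ 2 - F.n2) := by
  have s10 := hF.Msymm 1 0
  have s20 := hF.Msymm 2 0
  have s21 := hF.Msymm 2 1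
  have d := hF.DM 0 0
  have b0 := hbi3 hF 0 0
  have b1 := hbi3 hF 1 1
  have b2 := hbi3 hF 2 2
  have h1 := hF.HH 1 0 (F.M 0 1)
  have h2 := hF.HH 2 0 (F.M 0 2)
  simp only [FBD.Y, FBD.Hop, FBD.Lap, FBD.s, FBD.n2, hS _ _, FBD.Ric, Fin.sum_univ_three,
    hF.VM, s10, s20, s21] at *
  simp [eps, map_add, map_sub, s10, s20, s21] at d b0 b1 b2 h1 h2
  rw [d]
  simp only [Algebra.smul_def, map_ofNat]
  linear_combination b1 + b2 - b0 - h1 - h2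

theorem evm01 (hF : F.Full) (hS : F.IsRF) :
    F.Hop (F.M 0 1) = (4 : ℝ) • (∑ i, F.M 0 i * F.M i 1) - (2 : ℝ) • (F.s * F.M 0 1)
       + 0 := by
  have s10 := hF.Msymm 1 0
  have s20 := hF.Msymm 2 0
  have s21 := hF.Msymm 2 1
  have d := hF.DM 0 1
  have c1 := hbi3 hF 1 0
  have c2 := hbi3 hF 0 1
  have h1 := hF.HH 1 0 (F.M 1 1)
  have h2 := hF.HH 2 0 (F.M 1 2)
  simp only [FBD.Y, FBD.Hop, FBD.Lap, FBD.s, FBD.n2, hS _ _, FBD.Ric, Fin.sum_univ_three,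
    hF.VM, s10, s20, s21] at *
  simp [eps, map_add, map_sub, s10, s20, s21] at d c1 c2 h1 h2
  rw [d]
  simp only [Algebra.smul_def, map_ofNat]
  linear_combination -c1 - c2 - h1 - h2

theorem evm02 (hF : F.Full) (hS : F.IsRF) :
    F.Hop (F.M 0 2) = (4 : ℝ) • (∑ i, F.M 0 i * F.M i 2) - (2 : ℝ) • (F.s * F.M 0 2)
       + 0 := by
  have s10 := hF.Msymm 1 0
  have s20 := hF.Msymm 2 0
  have s21 := hF.Msymm 2 1
  have d := hF.DM 0 2
  have c1 := hbi3 hF 2 0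
  have c2 := hbi3 hF 0 2
  have h1 := hF.HH 1 0 (F.M 2 1)
  have h2 := hF.HH 2 0 (F.M 2 2)
  simp only [FBD.Y, FBD.Hop, FBD.Lap, FBD.s, FBD.n2, hS _ _, FBD.Ric, Fin.sum_univ_three,
    hF.VM, s10, s20, s21] at *
  simp [eps, map_add, map_sub, s10, s20, s21] at d c1 c2 h1 h2
  rw [d]
  simp only [Algebra.smul_def, map_ofNat]
  linear_combination -c1 - c2 - h1 - h2

theorem evm10 (hF : F.Full) (hS : F.IsRF) :
    F.Hop (F.M 1 0) = (4 : ℝ) • (∑ i, F.M 1 i * F.M i 0) - (2 : ℝ) • (F.s * F.M 1 0)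
       + 0 := by
  have s10 := hF.Msymm 1 0
  have s20 := hF.Msymm 2 0
  have s21 := hF.Msymm 2 1
  have d := hF.DM 1 0
  have c1 := hbi3 hF 0 1
  have c2 := hbi3 hF 1 0
  have h0 := hF.HH 0 1 (F.M 0 0)
  have h2 := hF.HH 2 1 (F.M 0 2)
  simp only [FBD.Y, FBD.Hop, FBD.Lap, FBD.s, FBD.n2, hS _ _, FBD.Ric, Fin.sum_univ_three,
    hF.VM, s10, s20, s21] at *
  simp [eps, map_add, map_sub, s10, s20, s21] at d c1 c2 h0 h2
  rw [d]
  simp only [Algebra.smul_def, map_ofNat]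
  linear_combination -c1 - c2 - h0 - h2

theorem evm11 (hF : F.Full) (hS : F.IsRF) :
    F.Hop (F.M 1 1) = (4 : ℝ) • (∑ i, F.M 1 i * F.M i 1) - (2 : ℝ) • (F.s * F.M 1 1)
       + (F.s ^ 2 - F.n2) := by
  have s10 := hF.Msymm 1 0
  have s20 := hF.Msymm 2 0
  have s21 := hF.Msymm 2 1
  have d := hF.DM 1 1
  have b0 := hbi3 hF 0 0
  have b1 := hbi3 hF 1 1
  have b2 := hbi3 hF 2 2
  have h0 := hF.HH 0 1 (F.M 1 0)
  have h2 := hF.HH 2 1 (F.M 1 2)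
  simp only [FBD.Y, FBD.Hop, FBD.Lap, FBD.s, FBD.n2, hS _ _, FBD.Ric, Fin.sum_univ_three,
    hF.VM, s10, s20, s21] at *
  simp [eps, map_add, map_sub, s10, s20, s21] at d b0 b1 b2 h0 h2
  rw [d]
  simp only [Algebra.smul_def, map_ofNat]
  linear_combination b0 + b2 - b1 - h0 - h2

theorem evm12 (hF : F.Full) (hS : F.IsRF) :
    F.Hop (F.M 1 2) = (4 : ℝ) • (∑ i, F.M 1 i * F.M i 2) - (2 : ℝ) • (F.s * F.M 1 2)
       + 0 := by
  have s10 := hF.Msymm 1 0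
  have s20 := hF.Msymm 2 0
  have s21 := hF.Msymm 2 1
  have d := hF.DM 1 2
  have c1 := hbi3 hF 2 1
  have c2 := hbi3 hF 1 2
  have h0 := hF.HH 0 1 (F.M 2 0)
  have h2 := hF.HH 2 1 (F.M 2 2)
  simp only [FBD.Y, FBD.Hop, FBD.Lap, FBD.s, FBD.n2, hS _ _, FBD.Ric, Fin.sum_univ_three,
    hF.VM, s10, s20, s21] at *
  simp [eps, map_add, map_sub, s10, s20, s21] at d c1 c2 h0 h2
  rw [d]
  simp only [Algebra.smul_def, map_ofNat]
  linear_combination -c1 - c2 - h0 - h2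

theorem evm20 (hF : F.Full) (hS : F.IsRF) :
    F.Hop (F.M 2 0) = (4 : ℝ) • (∑ i, F.M 2 i * F.M i 0) - (2 : ℝ) • (F.s * F.M 2 0)
       + 0 := by
  have s10 := hF.Msymm 1 0
  have s20 := hF.Msymm 2 0
  have s21 := hF.Msymm 2 1
  have d := hF.DM 2 0
  have c1 := hbi3 hF 0 2
  have c2 := hbi3 hF 2 0
  have h0 := hF.HH 0 2 (F.M 0 0)
  have h1 := hF.HH 1 2 (F.M 0 1)
  simp only [FBD.Y, FBD.Hop, FBD.Lap, FBD.s, FBD.n2, hS _ _, FBD.Ric, Fin.sum_univ_three,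
    hF.VM, s10, s20, s21] at *
  simp [eps, map_add, map_sub, s10, s20, s21] at d c1 c2 h0 h1
  rw [d]
  simp only [Algebra.smul_def, map_ofNat]
  linear_combination -c1 - c2 - h0 - h1

theorem evm21 (hF : F.Full) (hS : F.IsRF) :
    F.Hop (F.M 2 1) = (4 : ℝ) • (∑ i, F.M 2 i * F.M i 1) - (2 : ℝ) • (F.s * F.M 2 1)
       + 0 := by
  have s10 := hF.Msymm 1 0
  have s20 := hF.Msymm 2 0
  have s21 := hF.Msymm 2 1
  have d := hF.DM 2 1
  have c1 := hbi3 hF 1 2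
  have c2 := hbi3 hF 2 1
  have h0 := hF.HH 0 2 (F.M 1 0)
  have h1 := hF.HH 1 2 (F.M 1 1)
  simp only [FBD.Y, FBD.Hop, FBD.Lap, FBD.s, FBD.n2, hS _ _, FBD.Ric, Fin.sum_univ_three,
    hF.VM, s10, s20, s21] at *
  simp [eps, map_add, map_sub, s10, s20, s21] at d c1 c2 h0 h1
  rw [d]
  simp only [Algebra.smul_def, map_ofNat]
  linear_combination -c1 - c2 - h0 - h1

theorem evm22 (hF : F.Full) (hS : F.IsRF) :
    F.Hop (F.M 2 2) = (4 : ℝ) • (∑ i, F.M 2 i * F.M i 2) - (2 : ℝ) • (F.s * F.M 2 2)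
       + (F.s ^ 2 - F.n2) := by
  have s10 := hF.Msymm 1 0
  have s20 := hF.Msymm 2 0
  have s21 := hF.Msymm 2 1
  have d := hF.DM 2 2
  have b0 := hbi3 hF 0 0
  have b1 := hbi3 hF 1 1
  have b2 := hbi3 hF 2 2
  have h0 := hF.HH 0 2 (F.M 2 0)
  have h1 := hF.HH 1 2 (F.M 2 1)
  simp only [FBD.Y, FBD.Hop, FBD.Lap, FBD.s, FBD.n2, hS _ _, FBD.Ric, Fin.sum_univ_three,
    hF.VM, s10, s20, s21] at *
  simp [eps, map_add, map_sub, s10, s20, s21] at d b0 b1 b2 h0 h1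
  rw [d]
  simp only [Algebra.smul_def, map_ofNat]
  linear_combination b0 + b1 - b2 - h0 - h1

theorem evm : EvmStmt := by
  intro T F hF hS m j
  fin_cases m <;> fin_cases j
  · simpa using evm00 hF hS
  · simpa using evm01 hF hS
  · simpa using evm02 hF hS
  · simpa using evm10 hF hS
  · simpa using evm11 hF hS
  · simpa using evm12 hF hS
  · simpa using evm20 hF hS
  · simpa using evm21 hF hS
  · simpa using evm22 hF hS

end Pool.Agent.Helper10.RF
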