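import Pool.Agent.Helper73.RF.GoalsE

/-!
Packet FJS of project RF (MP_c98eff_gt, helper73): flows are jointly smooth.
Coinduction: the class of all polynomials in word derivatives of the entries of `A`, `θ` (up to
changes outside `I`) is closed under the time derivative.
-/

set_option autoImplicit false

open Finset Pool.Agent.Helper47.RF

namespace Pool.Agent.Helper10.RF

open Pool.Agent.Helper73.RF hiding eps

/-- polynomials in word derivatives of the entries, up to changes outside `I` -/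
inductive Cl (I : Set ℝ) (A θ : ℝ → MF) : (ℝ → HH → ℝ) → Prop
  | A (a i : Fin 3) : Cl I A θ (fun t x => A t x a i)
  | th (i a : Fin 3) : Cl I A θ (fun t x => θ t x i a)
  | const (c : ℝ) : Cl I A θ (fun _ _ => c)
  | add (f h : ℝ → HH → ℝ) : Cl I A θ f → Cl I A θ h → Cl I A θ (fun t x => f t x + h t x)
  | sub (f h : ℝ → HH → ℝ) : Cl I A θ f → Cl I A θ h → Cl I A θ (fun t x => f t x - h t x)
  | mul (f h : ℝ → HH → ℝ) : Cl I A θ f → Cl I A θ h → Cl I A θ (fun t x => f t x * h t x)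
  | neg (f : ℝ → HH → ℝ) : Cl I A θ f → Cl I A θ (fun t x => - f t x)
  | E (i : Fin 3) (f : ℝ → HH → ℝ) : Cl I A θ f → Cl I A θ (fun t => E i (f t))
  | congr (f g : ℝ → HH → ℝ) : Cl I A θ f → (∀ t ∈ I, f t = g t) → Cl I A θ g

variable {I : Set ℝ} {A θ : ℝ → MF}

theorem Cl.sum {ι : Type} (s : Finset ι) (f : ι → ℝ → HH → ℝ)
    (h : ∀ a ∈ s, Cl I A θ (f a)) : Cl I A θ (fun t x => ∑ a ∈ s, f a t x) := by
  classical
  induction s using Finset.induction_on with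
  | empty => simpa using Cl.const (I := I) (A := A) (θ := θ) 0
  | insert a s ha ih =>
    have h1 := Cl.add _ _ (h a (mem_insert_self a s)) (ih fun b hb => h b (mem_insert_of_mem hb))
    convert h1 using 3 with t x
    exact sum_insert ha

theorem smFam_congr {f g : ℝ → HH → ℝ} (h : SmFam I f) (hfg : ∀ t ∈ I, f t = g t) :
    SmFam I g := by
  refine ⟨fun t ht => hfg t ht ▸ h.sm t ht, fun w => ?_⟩
  refine (h.cont w).congr ?_
  rintro ⟨t, x⟩ hp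
  show Ew w (g t) x = Ew w (f t) x
  rw [hfg t hp.1]

theorem smFam1_congr {f g f' g' : ℝ → HH → ℝ} (h : SmFam1 I f f') (hfg : ∀ t ∈ I, f t = g t)
    (hfg' : ∀ t ∈ I, f' t = g' t) : SmFam1 I g g' := by
  refine ⟨smFam_congr h.fam hfg, smFam_congr h.fam' hfg', fun w x hx t ht => ?_⟩
  have h1 := h.der w x hx t ht
  rw [hfg' t ht] at h1
  refine h1.congr (fun s hs => ?_) ?_
  · rw [hfg s hs]
  · rw [hfg t ht]

section geometry

theorem cl_g (i j : Fin 3) : Cl I A θ (fun t x => gOf (θ t) x i j) := by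
  have h : Cl I A θ (fun t x => ∑ a : Fin 3, θ t x i a * θ t x j a) :=
    Cl.sum _ _ fun a _ => Cl.mul _ _ (Cl.th i a) (Cl.th j a)
  convert h using 3 with t x
  simp [gOf, Matrix.mul_apply]

theorem inv_eq {A θ : Matrix (Fin 3) (Fin 3) ℝ} (h : A * θ = 1) :
    (θ * θ.transpose)⁻¹ = A.transpose * A := by
  apply Matrix.inv_eq_left_inv
  have h1 : A.transpose * A * (θ * θ.transpose) = A.transpose * (A * θ) * θ.transpose := by
    simp only [Matrix.mul_assoc]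
  rw [h1, h, Matrix.mul_one, ← Matrix.transpose_mul, mul_eq_one_comm.mp h, Matrix.transpose_one]

theorem cl_gi (hinv : ∀ t ∈ I, ∀ x, A t x * θ t x = 1) (i j : Fin 3) :
    Cl I A θ (fun t x => (gOf (θ t) x)⁻¹ i j) := by
  have h : Cl I A θ (fun t x => ∑ a : Fin 3, A t x a i * A t x a j) :=
    Cl.sum _ _ fun a _ => Cl.mul _ _ (Cl.A a i) (Cl.A a j)
  refine Cl.congr _ _ h fun t ht => ?_
  funext x
  have := inv_eq (hinv t ht x)
  show _ = (θ t x * (θ t x).transpose)⁻¹ i j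
  rw [this]
  simp [Matrix.mul_apply]

theorem cl_GamL (i j k : Fin 3) : Cl I A θ (fun t x => GamL (gOf (θ t)) i j k x) := by
  have e : ∀ a b c : Fin 3, Cl I A θ (fun t x => E a (fun y => gOf (θ t) y b c) x) := fun a b c =>
    Cl.E a _ (cl_g b c)
  have c : ∀ r : ℝ, Cl I A θ (fun _ _ => r) := Cl.const
  have s : Cl I A θ (fun t x => ∑ l, (eps i j l * gOf (θ t) x l k - eps i k l * gOf (θ t) x l j
      - eps j k l * gOf (θ t) x l i)) :=
    Cl.sum _ _ fun l _ => Cl.sub _ _ (Cl.sub _ _ (Cl.mul _ _ (c _) (cl_g l k))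
      (Cl.mul _ _ (c _) (cl_g l j))) (Cl.mul _ _ (c _) (cl_g l i))
  have h := Cl.mul _ _ (c (1 / 2)) (Cl.add _ _ (Cl.sub _ _ (Cl.add _ _ (e i j k) (e j i k))
    (e k i j)) (Cl.mul _ _ (c 2) s))
  convert h using 3 with t x
  unfold GamL
  ring

theorem cl_Gam (hinv : ∀ t ∈ I, ∀ x, A t x * θ t x = 1) (i j k : Fin 3) :
    Cl I A θ (fun t x => Gam (gOf (θ t)) i j k x) :=
  Cl.sum _ _ fun m _ => Cl.mul _ _ (cl_gi hinv k m) (cl_GamL i j m)

theorem cl_Rup (hinv : ∀ t ∈ I, ∀ x, A t x * θ t x = 1) (i j k l : Fin 3) :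
    Cl I A θ (fun t x => Rup (gOf (θ t)) i j k l x) := by
  have G := cl_Gam hinv
  have e : ∀ a b c d : Fin 3, Cl I A θ (fun t x => E a (Gam (gOf (θ t)) b c d) x) :=
    fun a b c d => Cl.E a _ (G b c d)
  have s1 : Cl I A θ (fun t x => ∑ m, (Gam (gOf (θ t)) j k m x * Gam (gOf (θ t)) i m l x
      - Gam (gOf (θ t)) i k m x * Gam (gOf (θ t)) j m l x)) :=
    Cl.sum _ _ fun m _ => Cl.sub _ _ (Cl.mul _ _ (G j k m) (G i m l))
      (Cl.mul _ _ (G i k m) (G j m l))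
  have s2 : Cl I A θ (fun t x => ∑ m, eps i j m * Gam (gOf (θ t)) m k l x) :=
    Cl.sum _ _ fun m _ => Cl.mul _ _ (Cl.const _) (G m k l)
  exact Cl.sub _ _ (Cl.add _ _ (Cl.sub _ _ (e i j k l) (e j i k l)) s1)
    (Cl.mul _ _ (Cl.const 2) s2)

theorem cl_Ric (hinv : ∀ t ∈ I, ∀ x, A t x * θ t x = 1) (j k : Fin 3) :
    Cl I A θ (fun t x => Ric (gOf (θ t)) j k x) :=
  Cl.sum _ _ fun i _ => cl_Rup hinv i j k i

theorem cl_RicF (hinv : ∀ t ∈ I, ∀ x, A t x * θ t x = 1) (a b : Fin 3) :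
    Cl I A θ (fun t x => RicF (A t) (θ t) x a b) :=
  Cl.sum _ _ fun i _ => Cl.sum _ _ fun j _ =>
    Cl.mul _ _ (Cl.mul _ _ (Cl.A a i) (Cl.A b j)) (cl_Ric hinv i j)

end geometry

theorem cl_der (h9 : Goal_C9) (hF : FFlow I A θ) (f : ℝ → HH → ℝ) (hf : Cl I A θ f) :
    ∃ f', Cl I A θ f' ∧ SmFam1 I f f' := by
  obtain ⟨c1, c2, c3, c4, c5, c6, -, -⟩ := h9 I
  induction hf with
  | A a i =>
    exact ⟨_, Cl.sum _ _ fun b _ => Cl.mul _ _ (cl_RicF hF.inv a b) (Cl.A b i), hF.flA a i⟩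
  | th i a =>
    exact ⟨_, Cl.neg _ (Cl.sum _ _ fun b _ => Cl.mul _ _ (Cl.th i b) (cl_RicF hF.inv b a)),
      hF.flt i a⟩
  | const c =>
    exact ⟨_, Cl.const 0, c1 (fun _ => c) (fun _ => 0) continuousOn_const continuousOn_const
      fun t _ => hasDerivWithinAt_const t I c⟩
  | add f h _ _ ihf ihh =>
    obtain ⟨f', h1, h2⟩ := ihf
    obtain ⟨h', h3, h4⟩ := ihh
    exact ⟨_, Cl.add _ _ h1 h3, c2 _ _ _ _ h2 h4⟩
  | sub f h _ _ ihf ihh =>
    obtain ⟨f', h1, h2⟩ := ihf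
    obtain ⟨h', h3, h4⟩ := ihh
    exact ⟨_, Cl.sub _ _ h1 h3, c3 _ _ _ _ h2 h4⟩
  | mul f h kf kh ihf ihh =>
    obtain ⟨f', h1, h2⟩ := ihf
    obtain ⟨h', h3, h4⟩ := ihh
    exact ⟨_, Cl.add _ _ (Cl.mul _ _ h1 kh) (Cl.mul _ _ kf h3), c4 _ _ _ _ h2 h4⟩
  | neg f _ ihf =>
    obtain ⟨f', h1, h2⟩ := ihf
    exact ⟨_, Cl.neg _ h1, c5 _ _ h2⟩
  | E i f _ ihf =>
    obtain ⟨f', h1, h2⟩ := ihf
    exact ⟨_, Cl.E i _ h1, c6 _ _ i h2⟩
  | congr f g _ hfg ihf =>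
    obtain ⟨f', h1, h2⟩ := ihf
    exact ⟨f', h1, smFam1_congr h2 hfg fun _ _ => rfl⟩

theorem cl_smInf (h9 : Goal_C9) (hF : FFlow I A θ) (f : ℝ → HH → ℝ) (hf : Cl I A θ f) :
    SmInf I f := by
  choose d hd using fun x : {f : ℝ → HH → ℝ // Cl I A θ f} => cl_der h9 hF x.1 x.2
  let D : {f : ℝ → HH → ℝ // Cl I A θ f} → {f : ℝ → HH → ℝ // Cl I A θ f} :=
    fun x => ⟨d x, (hd x).1⟩
  refine ⟨fun k => (D^[k] ⟨f, hf⟩).1, rfl, fun k => ?_⟩
  have h1 : (D^[k + 1] ⟨f, hf⟩) = D (D^[k] ⟨f, hf⟩) := Function.iterate_succ_apply' D k _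
  show SmFam1 I (D^[k] ⟨f, hf⟩).1 (D^[k + 1] ⟨f, hf⟩).1
  rw [h1]
  exact (hd _).2

theorem fjs (h9 : Goal_C9) (hJ : JsmStmt) : FjsStmt := by
  intro T I A θ _ hI hF
  have key : ∀ f, Cl I A θ f → JS T f := fun f hf => hJ T I f hI (cl_smInf h9 hF f hf)
  refine ⟨fun i j => key _ (Cl.A i j), fun i j => key _ (Cl.th i j), fun i j => ?_⟩
  exact key _ (cl_RicF hF.inv i j)

end Pool.Agent.Helper10.RF
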